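import Pool.Agent.H301X.BG.Stmts

set_option autoImplicit false

open MeasureTheory Topology Filter Set Metric
open scoped ENNReal NNReal ContDiff

namespace Pool.Agent.H158I.BGMV

open Pool.Agent.H301X.BG

/-- multiplication by a complex number of absolute value one preserves Haar measure -/
theorem rot {F : Type} [NormedAddCommGroup F] [NormedSpace ℂ F] [FiniteDimensional ℂ F]
    [MeasurableSpace F] [BorelSpace F] (μ : Measure F) [μ.IsAddHaarMeasure] (c : ℂ)
    (hc : ‖c‖ = 1) : MeasurePreserving (fun y : F => c • y) μ μ := by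
  let _ : NormedSpace ℝ F := NormedSpace.restrictScalars ℝ ℂ F
  have _ : IsScalarTower ℝ ℂ F := RestrictScalars.isScalarTower ℝ ℂ F
  have _ : FiniteDimensional ℝ F := FiniteDimensional.trans ℝ ℂ F
  have hc0 : c ≠ 0 := by
    intro h
    rw [h, norm_zero] at hc
    exact zero_ne_one hc
  let L : F →ₗ[ℝ] F := (LinearMap.lsmul ℂ F c).restrictScalars ℝ
  have hL : ∀ y, L y = c • y := fun y => rfl
  have hinj : Function.Injective L := by
    intro y z h
    rw [hL, hL] at h
    exact smul_right_injective F hc0 h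
  have hdet : LinearMap.det L ≠ 0 := by
    have hu : IsUnit L := (LinearMap.isUnit_iff_ker_eq_bot L).2 (LinearMap.ker_eq_bot.2 hinj)
    exact (LinearMap.isUnit_det L hu).ne_zero
  have hmap := Measure.map_linearMap_addHaar_eq_smul_addHaar μ hdet
  have hmeas : Measurable (fun y : F => c • y) := (continuous_const_smul c).measurable
  have hball : (fun y : F => c • y) ⁻¹' ball 0 1 = ball 0 1 := by
    ext y
    simp [norm_smul, hc]
  have hval : μ (ball (0:F) 1) = ENNReal.ofReal |(LinearMap.det L)⁻¹| * μ (ball (0:F) 1) := by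
    have h1 := congrArg (fun ν : Measure F => ν (ball 0 1)) hmap
    simp only [Measure.smul_apply, smul_eq_mul] at h1
    rw [← h1]
    change _ = (Measure.map (fun y : F => c • y) μ) (ball 0 1)
    rw [Measure.map_apply hmeas measurableSet_ball, hball]
  have hpos : μ (ball (0:F) 1) ≠ 0 := (measure_ball_pos μ 0 one_pos).ne'
  have hfin : μ (ball (0:F) 1) ≠ ⊤ := measure_ball_lt_top.ne
  have hone : ENNReal.ofReal |(LinearMap.det L)⁻¹| = 1 := by
    have h2 : 1 * μ (ball (0:F) 1) = ENNReal.ofReal |(LinearMap.det L)⁻¹| * μ (ball (0:F) 1) := by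
      rw [one_mul]; exact hval
    exact ((ENNReal.mul_left_inj hpos hfin).1 h2).symm
  refine ⟨hmeas, ?_⟩
  change Measure.map L μ = μ
  rw [hmap, hone, one_smul]

theorem inner_le {F : Type} [NormedAddCommGroup F] [NormedSpace ℂ F] (x y : F) (R : ℝ)
    (f : F → ℂ) (hf : DifferentiableOn ℂ f (ball x R)) (hy : y ∈ ball x R) :
    ENNReal.ofReal (2 * Real.pi) * ‖f x‖ₑ ^ 2 ≤
      ∫⁻ θ in Ioc 0 (2 * Real.pi), ‖f (x + circleMap 0 1 θ • (y - x))‖ₑ ^ 2 := by
  have hd : ‖y - x‖ < R := by rwa [mem_ball, dist_eq_norm] at hy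
  let g : ℂ → ℂ := fun ζ => f (x + ζ • (y - x)) ^ 2
  have hg : ∀ z ∈ closedBall (0:ℂ) |1|, DifferentiableAt ℂ g z := by
    intro z hz
    have hz1 : ‖z‖ ≤ 1 := by simpa using hz
    have hin : x + z • (y - x) ∈ ball x R := by
      rw [mem_ball, dist_eq_norm, add_sub_cancel_left, norm_smul]
      calc ‖z‖ * ‖y - x‖ ≤ 1 * ‖y - x‖ := by gcongr
        _ < R := by rw [one_mul]; exact hd
    have h1 : DifferentiableAt ℂ f (x + z • (y - x)) := hf.differentiableAt (isOpen_ball.mem_nhds hin)
    have h2 : DifferentiableAt ℂ (fun ζ : ℂ => x + ζ • (y - x)) z := by fun_prop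
    exact (DifferentiableAt.comp z h1 h2).pow 2
  have hdc : DiffContOnCl ℂ g (ball 0 |1|) := by
    apply DifferentiableOn.diffContOnCl
    intro z hz
    apply DifferentiableAt.differentiableWithinAt
    apply hg z
    exact closure_ball_subset_closedBall hz
  have havg := DiffContOnCl.circleAverage hdc
  have h0 : g 0 = f x ^ 2 := by simp [g]
  rw [h0] at havg
  unfold Real.circleAverage at havg
  have hpi : (0:ℝ) < 2 * Real.pi := by positivity
  have h3 : (∫ θ in (0:ℝ)..2 * Real.pi, g (circleMap 0 1 θ)) = (2 * Real.pi) • f x ^ 2 := by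
    rw [← havg, smul_smul, mul_inv_cancel₀ hpi.ne', one_smul]
  have h4 : ENNReal.ofReal (2 * Real.pi) * ‖f x‖ₑ ^ 2 =
      ‖∫ θ in (0:ℝ)..2 * Real.pi, g (circleMap 0 1 θ)‖ₑ := by
    rw [h3, enorm_smul, enorm_pow, Real.enorm_of_nonneg hpi.le]
  rw [h4, intervalIntegral.integral_of_le hpi.le]
  refine (enorm_integral_le_lintegral_enorm _).trans (le_of_eq ?_)
  apply lintegral_congr
  intro θ
  simp only [g]
  rw [enorm_pow]

theorem taskMV : TaskMV := by
  intro F _ _ _ _ _ μ _ x R f hR hf
  have hpi : (0:ℝ) < 2 * Real.pi := by positivity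
  have _ : FiniteDimensional ℝ F := FiniteDimensional.trans ℝ ℂ F
  have _ : ProperSpace F := FiniteDimensional.proper ℂ F
  have _ : SecondCountableTopology F := inferInstance
  set h : F → ℝ≥0∞ := (ball x R).indicator (fun y => ‖f y‖ₑ ^ 2) with hh
  have hhm : Measurable h := by
    classical
    rw [hh, ← Set.piecewise_eq_indicator]
    have hc : ContinuousOn (fun y => ‖f y‖ₑ ^ 2) (ball x R) :=
      (ENNReal.continuous_pow 2).comp_continuousOn (continuous_enorm.comp_continuousOn hf.continuousOn)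
    exact hc.measurable_piecewise continuousOn_const isOpen_ball.measurableSet
  have hint : ∫⁻ y in ball x R, ‖f y‖ₑ ^ 2 ∂μ = ∫⁻ y, h y ∂μ := by
    rw [hh, lintegral_indicator measurableSet_ball]
  have hrot : ∀ θ : ℝ, ∫⁻ y, h (x + circleMap 0 1 θ • (y - x)) ∂μ = ∫⁻ y, h y ∂μ := by
    intro θ
    have hc : ‖circleMap 0 1 θ‖ = 1 := by simp
    have e1 := lintegral_sub_right_eq_self (μ := μ)
      (fun y => h (x + circleMap 0 1 θ • y)) x
    have e2 := (rot μ (circleMap 0 1 θ) hc).lintegral_comp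
      (f := fun y => h (x + y)) (hhm.comp (measurable_const_add x))
    have e3 := lintegral_add_left_eq_self (μ := μ) h x
    rw [e1, e2, e3]
  have hJ : Measurable (fun q : ℝ × F => h (x + circleMap 0 1 q.1 • (q.2 - x))) := by
    apply hhm.comp
    apply Continuous.measurable
    have : Continuous (fun q : ℝ × F => circleMap 0 1 q.1) :=
      (continuous_circleMap 0 1).comp continuous_fst
    exact continuous_const.add (this.smul (continuous_snd.sub continuous_const))
  have hswap : ∫⁻ θ in Ioc 0 (2 * Real.pi), ∫⁻ y, h (x + circleMap 0 1 θ • (y - x)) ∂μ =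
      ∫⁻ y, (∫⁻ θ in Ioc 0 (2 * Real.pi), h (x + circleMap 0 1 θ • (y - x))) ∂μ :=
    lintegral_lintegral_swap hJ.aemeasurable
  have hleft : ∫⁻ θ in Ioc 0 (2 * Real.pi), ∫⁻ y, h (x + circleMap 0 1 θ • (y - x)) ∂μ =
      ENNReal.ofReal (2 * Real.pi) * ∫⁻ y, h y ∂μ := by
    simp_rw [hrot]
    rw [setLIntegral_const, Real.volume_Ioc, sub_zero, mul_comm]
  have hright : ENNReal.ofReal (2 * Real.pi) * (‖f x‖ₑ ^ 2 * μ (ball x R)) ≤
      ∫⁻ y, (∫⁻ θ in Ioc 0 (2 * Real.pi), h (x + circleMap 0 1 θ • (y - x))) ∂μ := by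
    calc ENNReal.ofReal (2 * Real.pi) * (‖f x‖ₑ ^ 2 * μ (ball x R))
        = ∫⁻ _ in ball x R, ENNReal.ofReal (2 * Real.pi) * ‖f x‖ₑ ^ 2 ∂μ := by
          rw [setLIntegral_const, mul_assoc]
      _ ≤ ∫⁻ y in ball x R, (∫⁻ θ in Ioc 0 (2 * Real.pi),
            h (x + circleMap 0 1 θ • (y - x))) ∂μ := by
          apply setLIntegral_mono' measurableSet_ball
          intro y hy
          refine (inner_le x y R f hf hy).trans (le_of_eq ?_)
          apply lintegral_congr
          intro θ
          have hin : x + circleMap 0 1 θ • (y - x) ∈ ball x R := by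
            rw [mem_ball, dist_eq_norm, add_sub_cancel_left, norm_smul]
            have hc : ‖circleMap 0 1 θ‖ = 1 := by simp
            rw [hc, one_mul]
            rwa [mem_ball, dist_eq_norm] at hy
          rw [hh, Set.indicator_of_mem hin]
      _ ≤ _ := setLIntegral_le_lintegral _ _
  rw [hint]
  rw [← hswap, hleft] at hright
  have hpi0 : ENNReal.ofReal (2 * Real.pi) ≠ 0 := (ENNReal.ofReal_pos.2 hpi).ne'
  exact (ENNReal.mul_le_mul_iff_right hpi0 ENNReal.ofReal_ne_top).1 hright

end Pool.Agent.H158I.BGMV
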