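import Pool.Agent.H972ST.Stmts

set_option autoImplicit false

namespace Pool.Agent.H158I.STSer1

open Pool.Agent.H972ST

def av (j : ℕ) : ℤ := ([1, -9, 36, -84, 126, -126, 84, -36, 9, -1] : List ℤ).getD j 0

theorem coeff9 (j : ℕ) : Polynomial.coeff ((1 - Polynomial.X) ^ 9 : Polynomial ℤ) j = av j := by
  have h : ((1 - Polynomial.X) ^ 9 : Polynomial ℤ) =
      ∑ k ∈ Finset.range 10, Polynomial.C (av k) * Polynomial.X ^ k := by
    simp only [Finset.sum_range_succ, Finset.sum_range_zero, av, List.getD_cons_zero,
      List.getD_cons_succ]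
    simp only [map_neg, map_one, Polynomial.C_ofNat]
    ring
  rw [h, Polynomial.finset_sum_coeff]
  simp only [Polynomial.coeff_C_mul_X_pow]
  by_cases hj : j < 10
  · rw [Finset.sum_ite_eq, if_pos (Finset.mem_range.2 hj)]
  · rw [Finset.sum_ite_eq, if_neg (by rwa [Finset.mem_range])]
    unfold av
    rw [List.getD_eq_default]
    simp only [List.length_cons, List.length_nil]
    omega

theorem tSer1 : TSer1 := by
  intro c hc i
  simp only [coeff9]
  by_cases hi : i < 9
  · have c0 : c 0 = 1 := by have := hc 0; norm_num [LPq] at this; exact_mod_cast this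
    have c1 : c 1 = 37 := by have := hc 1; norm_num [LPq] at this; exact_mod_cast this
    have c2 : c 2 = 505 := by have := hc 2; norm_num [LPq] at this; exact_mod_cast this
    have c3 : c 3 = 3957 := by have := hc 3; norm_num [LPq] at this; exact_mod_cast this
    have c4 : c 4 = 21373 := by have := hc 4; norm_num [LPq] at this; exact_mod_cast this
    have c5 : c 5 = 88449 := by have := hc 5; norm_num [LPq] at this; exact_mod_cast this
    have c6 : c 6 = 300157 := by have := hc 6; norm_num [LPq] at this; exact_mod_cast this
    have c7 : c 7 = 874585 := by have := hc 7; norm_num [LPq] at this; exact_mod_cast this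
    have c8 : c 8 = 2259817 := by have := hc 8; norm_num [LPq] at this; exact_mod_cast this
    interval_cases i <;>
      simp [Finset.sum_range_succ, av, H1, c0, c1, c2, c3, c4, c5, c6, c7, c8]
  · obtain ⟨t, rfl⟩ : ∃ t, i = 9 + t := ⟨i - 9, by omega⟩
    have hsub : Finset.range 10 ⊆ Finset.range (9 + t + 1) := by
      intro x hx
      rw [Finset.mem_range] at hx ⊢
      omega
    have hz : ∀ x ∈ Finset.range (9 + t + 1), x ∉ Finset.range 10 → av x * c (9 + t - x) = 0 := by
      intro x _ hx
      rw [Finset.mem_range] at hx
      have : av x = 0 := by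
        unfold av
        rw [List.getD_eq_default]
        simp only [List.length_cons, List.length_nil]
        omega
      rw [this, zero_mul]
    rw [← Finset.sum_subset hsub hz]
    have hH : H1 (9 + t) = 0 := by
      unfold H1
      rw [List.getD_eq_default]
      simp only [List.length_cons, List.length_nil]
      omega
    rw [hH]
    simp only [Finset.sum_range_succ, Finset.sum_range_zero, av, List.getD_cons_zero,
      List.getD_cons_succ]
    have e0 : 9 + t - 0 = t + 9 := by omega
    have e1 : 9 + t - 1 = t + 8 := by omega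
    have e2 : 9 + t - 2 = t + 7 := by omega
    have e3 : 9 + t - 3 = t + 6 := by omega
    have e4 : 9 + t - 4 = t + 5 := by omega
    have e5 : 9 + t - 5 = t + 4 := by omega
    have e6 : 9 + t - 6 = t + 3 := by omega
    have e7 : 9 + t - 7 = t + 2 := by omega
    have e8 : 9 + t - 8 = t + 1 := by omega
    have e9 : 9 + t - 9 = t := by omega
    rw [e0, e1, e2, e3, e4, e5, e6, e7, e8, e9]
    have key : ((0 + 1 * c (t + 9) + -9 * c (t + 8) + 36 * c (t + 7) + -84 * c (t + 6) +
        126 * c (t + 5) + -126 * c (t + 4) + 84 * c (t + 3) + -36 * c (t + 2) + 9 * c (t + 1) +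
        -1 * c t : ℤ) : ℚ) = 0 := by
      push_cast
      simp only [hc, LPq]
      push_cast
      ring
    exact_mod_cast key

end Pool.Agent.H158I.STSer1
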